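import Pool.Agent.Lib.AbcThin.Diag
import Pool.Agent.Lib.AbcS.BoxF

/-!
# AbcThin.Absolute: greatest prime factor above `rad ^ (1/3 + δ)`, absolute exponent
-/

open Filter Pool.Agent.Lib.FewX Pool.Agent.Lib.FewY

namespace Pool.Agent.Lib.AbcThin

/-- from dyadic counts to a sparse set -/
theorem sparse_of (Q : ℕ → Prop) (θ ε : ℝ) (hθ : 0 ≤ θ) (hε : 0 < ε) (Y0 : ℕ)
    (H : ∀ Y : ℕ, Y0 ≤ Y → ∀ F : Finset ℕ, (∀ m ∈ F, Y < 2 * m ∧ m ≤ Y ∧ Q m) →
      (F.card : ℝ) ≤ (Y : ℝ) ^ θ) :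
    ∃ X0 : ℕ, ∀ X : ℕ, X0 ≤ X → ∀ N : ℕ,
    ∀ F : Finset ℕ, (∀ m ∈ F, X < m ∧ m ≤ N ∧ Q m) → (F.card : ℝ) ≤ (N : ℝ) ^ (θ + ε) := by
  classical
  have hev : ∀ᶠ N : ℕ in atTop,
      ((Nat.clog 2 N : ℝ) + 1) * (2 * (N : ℝ)) ^ θ ≤ (N : ℝ) ^ (θ + ε) := by
    filter_upwards [Pool.Agent.Lib.Pabc9.ev_poly_log (2 * (2 : ℝ) ^ θ) 1 ε hε,
      eventually_ge_atTop 1] with N hN hN1
    have hNr : (1 : ℝ) ≤ N := by exact_mod_cast hN1
    have hN0 : (0 : ℝ) < N := by linarith
    have hlog : 0 ≤ Real.log N := Real.log_nonneg hNr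
    have h2 : (1 : ℝ) / 2 < Real.log 2 := by
      have := Real.log_two_gt_d9
      linarith
    have hlb : 0 ≤ Real.logb 2 N := Real.logb_nonneg one_lt_two hNr
    have h3 : (Nat.clog 2 N : ℝ) < Real.logb 2 N + 1 := by
      rw [← Real.natCeil_logb_natCast]
      exact Nat.ceil_lt_add_one (by exact_mod_cast hlb)
    have h4 : Real.logb 2 N ≤ 2 * Real.log N := by
      unfold Real.logb
      rw [div_le_iff₀ (by linarith)]
      nlinarith
    have h5 : (Nat.clog 2 N : ℝ) + 1 ≤ 2 * (1 + Real.log N) := by linarith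
    calc ((Nat.clog 2 N : ℝ) + 1) * (2 * (N : ℝ)) ^ θ
        ≤ (2 * (1 + Real.log N)) * ((2 : ℝ) ^ θ * (N : ℝ) ^ θ) := by
          rw [Real.mul_rpow (by norm_num) hN0.le]
          exact mul_le_mul_of_nonneg_right h5 (by positivity)
      _ = (2 * (2 : ℝ) ^ θ * (1 + Real.log N) ^ 1) * (N : ℝ) ^ θ := by ring
      _ ≤ (N : ℝ) ^ ε * (N : ℝ) ^ θ := mul_le_mul_of_nonneg_right hN (by positivity)
      _ = (N : ℝ) ^ (θ + ε) := by
          rw [← Real.rpow_add hN0]
          congr 1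
          ring
  obtain ⟨X1, hX1⟩ := Filter.eventually_atTop.1 hev
  refine ⟨max Y0 X1, fun X hX N F hF => ?_⟩
  have hXY : Y0 ≤ X := (le_max_left _ _).trans hX
  have hXX : X1 ≤ X := (le_max_right _ _).trans hX
  rcases F.eq_empty_or_nonempty with rfl | ⟨m1, hm1⟩
  · simp only [Finset.card_empty, Nat.cast_zero]
    positivity
  have hN : X < N := by
    obtain ⟨g1, g2, -⟩ := hF m1 hm1
    omega
  have hmap : ∀ m ∈ F, Nat.clog 2 m ∈ Finset.range (Nat.clog 2 N + 1) := by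
    intro m hm
    rw [Finset.mem_range]
    have := Nat.clog_mono_right 2 (hF m hm).2.1
    omega
  calc (F.card : ℝ) = ∑ j ∈ Finset.range (Nat.clog 2 N + 1),
        ((F.filter (fun m => Nat.clog 2 m = j)).card : ℝ) := by
        exact_mod_cast Finset.card_eq_sum_card_fiberwise hmap
    _ ≤ ∑ _j ∈ Finset.range (Nat.clog 2 N + 1), (2 * (N : ℝ)) ^ θ := by
        refine Finset.sum_le_sum fun j hj => ?_
        rcases (F.filter (fun m => Nat.clog 2 m = j)).eq_empty_or_nonempty with he | ⟨m2, hm2⟩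
        · rw [he]
          simp only [Finset.card_empty, Nat.cast_zero]
          positivity
        · obtain ⟨hm2F, hm2j⟩ := Finset.mem_filter.1 hm2
          have hm2X := (hF m2 hm2F).1
          have hle : m2 ≤ 2 ^ j := by
            rw [← hm2j]
            exact Nat.le_pow_clog one_lt_two m2
          have hm2' : 1 < m2 ∨ m2 ≤ 1 := by omega
          rcases hm2' with hm2' | hm2'
          · have h1 := H (2 ^ j) (by omega) (F.filter (fun m => Nat.clog 2 m = j)) (by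
              intro m hm
              obtain ⟨hmF, hmj⟩ := Finset.mem_filter.1 hm
              obtain ⟨g1, g2, g3⟩ := hF m hmF
              refine ⟨?_, ?_, g3⟩
              · have hj0 : 0 < j := by
                  rw [← hm2j]
                  exact Nat.clog_pos one_lt_two hm2'
                have hm3 : 1 < m := by
                  by_contra hle1
                  have : Nat.clog 2 m = 0 := Nat.clog_of_right_le_one (by omega) 2
                  omega
                have := Nat.pow_pred_clog_lt_self one_lt_two hm3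
                rw [hmj] at this
                obtain ⟨i, rfl⟩ : ∃ i, j = i + 1 := ⟨j - 1, by omega⟩
                simp only [Nat.pred_eq_sub_one, Nat.add_sub_cancel] at this
                rw [pow_succ]
                omega
              · rw [← hmj]
                exact Nat.le_pow_clog one_lt_two m)
            refine h1.trans ?_
            refine Real.rpow_le_rpow (by positivity) ?_ hθ
            have h3 := Nat.pow_pred_clog_lt_self one_lt_two hm2'
            rw [hm2j] at h3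
            have hj0 : 0 < j := by
              rw [← hm2j]
              exact Nat.clog_pos one_lt_two hm2'
            obtain ⟨i, rfl⟩ : ∃ i, j = i + 1 := ⟨j - 1, by omega⟩
            simp only [Nat.pred_eq_sub_one, Nat.add_sub_cancel] at h3
            have h4 : m2 ≤ N := (hF m2 hm2F).2.1
            have h5 : 2 ^ (i + 1) ≤ 2 * N := by
              rw [pow_succ]
              omega
            exact_mod_cast h5
          · -- m2 = 1, j = 0
            have hj0 : j = 0 := by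
              rw [← hm2j]
              exact Nat.clog_of_right_le_one hm2' 2
            subst hj0
            have h1 := H (2 ^ 0) (by omega) (F.filter (fun m => Nat.clog 2 m = 0)) (by
              intro m hm
              obtain ⟨hmF, hmj⟩ := Finset.mem_filter.1 hm
              obtain ⟨g1, g2, g3⟩ := hF m hmF
              have hm3 : m ≤ 2 ^ 0 := by
                have := Nat.le_pow_clog one_lt_two m
                rwa [hmj] at this
              refine ⟨by simp; omega, hm3, g3⟩)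
            refine h1.trans ?_
            refine Real.rpow_le_rpow (by positivity) ?_ hθ
            have h4 : m2 ≤ N := (hF m2 hm2F).2.1
            have h5 : 2 ^ 0 ≤ 2 * N := by
              simp only [pow_zero]
              omega
            exact_mod_cast h5
    _ = ((Nat.clog 2 N : ℝ) + 1) * (2 * (N : ℝ)) ^ θ := by
        rw [Finset.sum_const, Finset.card_range, nsmul_eq_mul]
        push_cast
        ring
    _ ≤ (N : ℝ) ^ (θ + ε) := hX1 N (by omega)

/-- `P` is the greatest prime factor of `n` -/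
def IsGPF (P n : ℕ) : Prop := P.Prime ∧ P ∣ n ∧ ∀ q : ℕ, q.Prime → q ∣ n → q ≤ P

/-- `P` is the greatest prime factor of a violating triple with `rad ≤ P ^ k` -/
def Bad2 (k : ℝ) (M P : ℕ) : Prop :=
  ∃ a b c : ℕ, AbcTriple a b c ∧ IsGPF P (a * b * c) ∧ (rad (a * b * c) : ℝ) ≤ (P : ℝ) ^ k ∧
    P ^ M ≤ c

theorem rad_pos (n : ℕ) : 0 < rad n :=
  Finset.prod_pos fun _ hp => (Nat.prime_of_mem_primeFactors hp).pos

theorem rad_mul3 {a b c : ℕ} (h : AbcTriple a b c) : rad (a * b * c) = rad a * rad b * rad c := by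
  obtain ⟨-, -, -, h1, h2, h3, -⟩ := h
  unfold rad
  rw [Nat.Coprime.primeFactors_mul (Nat.Coprime.mul_left h2 h3),
    Nat.Coprime.primeFactors_mul h1, Finset.prod_union, Finset.prod_union]
  · exact h1.disjoint_primeFactors
  · rw [← Nat.Coprime.primeFactors_mul h1]
    exact (Nat.Coprime.mul_left h2 h3).disjoint_primeFactors

theorem le_rad {P n : ℕ} (hP : P.Prime) (hn : n ≠ 0) (h : P ∣ n) : P ≤ rad n :=
  Nat.le_of_dvd (rad_pos n) (Finset.dvd_prod_of_mem _ (Nat.mem_primeFactors.2 ⟨hP, h, hn⟩))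

theorem rF_one (m : ℕ) : Pool.Agent.Lib.AbcS.rF (1 : ℕ).primeFactors m = rad m := by
  unfold Pool.Agent.Lib.AbcS.rF rad
  simp

theorem DD_le_BC {A B C : ℕ} (hA : 1 ≤ A) : Pool.Agent.Lib.AbcB.DD A B C ≤ (B : ℝ) * C := by
  have hA' : (0 : ℝ) < A := by exact_mod_cast hA
  unfold Pool.Agent.Lib.AbcB.DD
  rw [div_le_iff₀ (lt_of_lt_of_le hA' (le_max_left _ _))]
  calc (A : ℝ) * B * C = (B * C) * A := by ring
    _ ≤ (B * C) * max (A : ℝ) (max (B : ℝ) C) :=
        mul_le_mul_of_nonneg_left (le_max_left _ _) (by positivity)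

theorem DD_le_AC {A B C : ℕ} (hB : 1 ≤ B) : Pool.Agent.Lib.AbcB.DD A B C ≤ (A : ℝ) * C := by
  have hB' : (0 : ℝ) < B := by exact_mod_cast hB
  have hm : (B : ℝ) ≤ max (A : ℝ) (max (B : ℝ) C) := (le_max_left _ _).trans (le_max_right _ _)
  unfold Pool.Agent.Lib.AbcB.DD
  rw [div_le_iff₀ (lt_of_lt_of_le hB' hm)]
  calc (A : ℝ) * B * C = (A * C) * B := by ring
    _ ≤ (A * C) * max (A : ℝ) (max (B : ℝ) C) := mul_le_mul_of_nonneg_left hm (by positivity)

theorem DD_le_AB {A B C : ℕ} (hC : 1 ≤ C) : Pool.Agent.Lib.AbcB.DD A B C ≤ (A : ℝ) * B := by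
  have hC' : (0 : ℝ) < C := by exact_mod_cast hC
  have hm : (C : ℝ) ≤ max (A : ℝ) (max (B : ℝ) C) := (le_max_right _ _).trans (le_max_right _ _)
  unfold Pool.Agent.Lib.AbcB.DD
  rw [div_le_iff₀ (lt_of_lt_of_le hC' hm)]
  exact mul_le_mul_of_nonneg_left hm (by positivity)

theorem pow_clog_le {n : ℕ} (hn : 1 ≤ n) : 2 ^ Nat.clog 2 n ≤ 2 * n := by
  rcases Nat.lt_or_ge 1 n with h | h
  · have h3 := Nat.pow_pred_clog_lt_self one_lt_two h
    have hj0 : 0 < Nat.clog 2 n := Nat.clog_pos one_lt_two h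
    obtain ⟨i, hi⟩ : ∃ i, Nat.clog 2 n = i + 1 := ⟨Nat.clog 2 n - 1, by omega⟩
    rw [hi] at h3 ⊢
    simp only [Nat.pred_eq_sub_one, Nat.add_sub_cancel] at h3
    rw [pow_succ]
    omega
  · have : n = 1 := by omega
    subst this
    simp

/-- the three positions of the largest prime -/
def Pos (s : Fin 3) (A B C : ℕ) (t : ℕ × ℕ) : Prop :=
  (s = 0 ∧ rad t.1 ≤ A ∧ rad t.2 ≤ B ∧ rad (t.1 + t.2) ≤ C) ∨
  (s = 1 ∧ rad t.2 ≤ A ∧ rad t.1 ≤ B ∧ rad (t.1 + t.2) ≤ C) ∨
  (s = 2 ∧ rad (t.1 + t.2) ≤ A ∧ rad t.1 ≤ B ∧ rad t.2 ≤ C)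

theorem class_bound {K M ε : ℝ} (hK : 1 ≤ K) (hε : 0 < ε)
    (hbox : ∀ (P A B C : ℕ) (T : Finset (ℕ × ℕ)), 1 ≤ P → 1 ≤ A → 1 ≤ B → 1 ≤ C →
      (∀ t ∈ T, Pool.Agent.Lib.AbcS.InBoxF P.primeFactors A B C t ∧
        M * Real.log (Pool.Agent.Lib.Pabc2.rd t) ≤ Pool.Agent.Lib.Pabc2.ht t) →
      (T.card : ℝ) ≤ K * Real.sqrt (Pool.Agent.Lib.AbcB.DD A B C) * ((P : ℝ) * A * B * C) ^ ε)
    (s : Fin 3) (A B C : ℕ) (hA : 1 ≤ A) (hB : 1 ≤ B) (hC : 1 ≤ C) (X : ℝ)
    (hX : (B : ℝ) * C ≤ X) (T : Finset (ℕ × ℕ))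
    (hT : ∀ t ∈ T, 0 < t.1 ∧ 0 < t.2 ∧ Nat.Coprime t.1 t.2 ∧ Pos s A B C t ∧
      M * Real.log (Pool.Agent.Lib.Pabc2.rd t) ≤ Pool.Agent.Lib.Pabc2.ht t) :
    (T.card : ℝ) ≤ K * Real.sqrt X * ((A : ℝ) * X) ^ ε := by
  have hK0 : 0 ≤ K := by linarith
  have fin : ∀ D : ℝ, D ≤ X → K * Real.sqrt D * ((A : ℝ) * (B * C)) ^ ε ≤
      K * Real.sqrt X * ((A : ℝ) * X) ^ ε := by
    intro D hD
    refine mul_le_mul (mul_le_mul_of_nonneg_left (Real.sqrt_le_sqrt hD) hK0) ?_ (by positivity)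
      (by positivity)
    exact Real.rpow_le_rpow (by positivity) (mul_le_mul_of_nonneg_left hX (by positivity)) hε.le
  have e1 : ∀ m, Pool.Agent.Lib.AbcS.rF (1 : ℕ).primeFactors m = rad m := rF_one
  fin_cases s
  · refine (hbox 1 A B C T le_rfl hA hB hC fun t ht => ?_).trans ?_
    · obtain ⟨h1, h2, h3, h4, h5⟩ := hT t ht
      refine ⟨⟨h1, h2, h3, ?_⟩, h5⟩
      rw [e1, e1, e1]
      rcases h4 with h | h | h
      · exact h.2
      · exact absurd h.1 (by decide)
      · exact absurd h.1 (by decide)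
    · have := fin _ ((DD_le_BC (B := B) (C := C) hA).trans hX)
      rwa [show (A : ℝ) * (B * C) = ((1 : ℕ) : ℝ) * A * B * C by push_cast; ring] at this
  · refine (hbox 1 B A C T le_rfl hB hA hC fun t ht => ?_).trans ?_
    · obtain ⟨h1, h2, h3, h4, h5⟩ := hT t ht
      refine ⟨⟨h1, h2, h3, ?_⟩, h5⟩
      rw [e1, e1, e1]
      rcases h4 with h | h | h
      · exact absurd h.1 (by decide)
      · exact ⟨h.2.2.1, h.2.1, h.2.2.2⟩
      · exact absurd h.1 (by decide)
    · have := fin _ ((DD_le_AC (A := B) (C := C) hA).trans hX)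
      rwa [show (A : ℝ) * (B * C) = ((1 : ℕ) : ℝ) * B * A * C by push_cast; ring] at this
  · refine (hbox 1 B C A T le_rfl hB hC hA fun t ht => ?_).trans ?_
    · obtain ⟨h1, h2, h3, h4, h5⟩ := hT t ht
      refine ⟨⟨h1, h2, h3, ?_⟩, h5⟩
      rw [e1, e1, e1]
      rcases h4 with h | h | h
      · exact absurd h.1 (by decide)
      · exact absurd h.1 (by decide)
      · exact ⟨h.2.2.1, h.2.2.2, h.2.1⟩
    · have := fin _ ((DD_le_AB (A := B) (B := C) hA).trans hX)
      rwa [show (A : ℝ) * (B * C) = ((1 : ℕ) : ℝ) * B * C * A by push_cast; ring] at this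

end Pool.Agent.Lib.AbcThin
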