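import Pool.Agent.Lib.AbcThin.Absolute

/-!
# AbcThin.Absolute2: the sparse set of greatest primes of violators with `rad ≤ P ^ k`
-/

open Filter Pool.Agent.Lib.FewX Pool.Agent.Lib.FewY

namespace Pool.Agent.Lib.AbcThin

theorem ev2 (k ε K D : ℝ) (hk : 1 ≤ k) (hε : 0 < ε) (hK : 0 ≤ K) (hD : 0 ≤ D) : ∀ᶠ Y : ℕ in atTop,
    3 * ((Nat.clog 2 ⌊(Y : ℝ) ^ k⌋₊ : ℝ) + 1) * K * D ≤ (Y : ℝ) ^ ε := by
  filter_upwards [Pool.Agent.Lib.Pabc9.ev_poly_log (3 * (2 * k) * K * D) 1 ε hε,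
    eventually_ge_atTop 1] with N hN hN1
  have hNr : (1 : ℝ) ≤ N := by exact_mod_cast hN1
  have hN0 : (0 : ℝ) < N := by linarith
  have hlog : 0 ≤ Real.log N := Real.log_nonneg hNr
  have h2 : (1 : ℝ) / 2 < Real.log 2 := by
    have := Real.log_two_gt_d9
    linarith
  have hNk : (1 : ℝ) ≤ (N : ℝ) ^ k := Real.one_le_rpow hNr (by linarith)
  have hfl : 1 ≤ ⌊(N : ℝ) ^ k⌋₊ := Nat.le_floor (by exact_mod_cast hNk)
  have hflr : (1 : ℝ) ≤ (⌊(N : ℝ) ^ k⌋₊ : ℝ) := by exact_mod_cast hfl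
  have hlb : 0 ≤ Real.logb 2 (⌊(N : ℝ) ^ k⌋₊ : ℝ) := Real.logb_nonneg one_lt_two hflr
  have h3 : (Nat.clog 2 ⌊(N : ℝ) ^ k⌋₊ : ℝ) < Real.logb 2 (⌊(N : ℝ) ^ k⌋₊ : ℝ) + 1 := by
    rw [← Real.natCeil_logb_natCast]
    exact Nat.ceil_lt_add_one (by exact_mod_cast hlb)
  have h4 : Real.logb 2 (⌊(N : ℝ) ^ k⌋₊ : ℝ) ≤ 2 * k * Real.log N := by
    have h5 : Real.log (⌊(N : ℝ) ^ k⌋₊ : ℝ) ≤ k * Real.log N := by
      rw [← Real.log_rpow hN0]
      exact Real.log_le_log (by linarith) (Nat.floor_le (by positivity))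
    unfold Real.logb
    rw [div_le_iff₀ (by linarith)]
    have : 0 ≤ k * Real.log N := by positivity
    nlinarith
  have h5 : (Nat.clog 2 ⌊(N : ℝ) ^ k⌋₊ : ℝ) + 1 ≤ 2 * k * (1 + Real.log N) := by nlinarith
  calc 3 * ((Nat.clog 2 ⌊(N : ℝ) ^ k⌋₊ : ℝ) + 1) * K * D
      ≤ 3 * (2 * k * (1 + Real.log N)) * K * D := by
        refine mul_le_mul_of_nonneg_right (mul_le_mul_of_nonneg_right ?_ hK) hD
        linarith
    _ = 3 * (2 * k) * K * D * (1 + Real.log N) ^ 1 := by ring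
    _ ≤ (N : ℝ) ^ ε := hN

theorem dyadic2 (k ε : ℝ) (hk : 1 ≤ k) (hε : 0 < ε) : ∃ M Y0 : ℕ, ∀ Y : ℕ, Y0 ≤ Y →
    ∀ F : Finset ℕ, (∀ p ∈ F, Y < 2 * p ∧ p ≤ Y ∧ Bad2 k M p) →
      (F.card : ℝ) ≤ (Y : ℝ) ^ ((k - 1) / 2 + ε) := by
  classical
  have hk0 : 0 < k := by linarith
  obtain ⟨K, M0, hK, hM0, hbox⟩ := Pool.Agent.Lib.AbcS.box_violF (ε / (4 * k)) (by positivity)
  obtain ⟨Y1, hY1⟩ := Filter.eventually_atTop.1 (ev2 k (ε / 2) K
    (Real.sqrt 2 * (2 : ℝ) ^ (ε / (4 * k))) hk (by positivity) (by linarith) (by positivity))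
  refine ⟨⌈k * M0⌉₊, max Y1 1, fun Y hY F hF => ?_⟩
  have hYY1 : Y1 ≤ Y := (le_max_left _ _).trans hY
  have hY1' : 1 ≤ Y := (le_max_right _ _).trans hY
  have hYr : (1 : ℝ) ≤ Y := by exact_mod_cast hY1'
  have hY0 : (0 : ℝ) < Y := by linarith
  have hYk : (1 : ℝ) ≤ (Y : ℝ) ^ k := Real.one_le_rpow hYr hk0.le
  have hX1 : (1 : ℝ) ≤ (Y : ℝ) ^ (k - 1) := Real.one_le_rpow hYr (by linarith)
  set X : ℝ := (Y : ℝ) ^ (k - 1) with hX
  set A : ℕ := ⌊(Y : ℝ) ^ k⌋₊ with hA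
  have hA1 : 1 ≤ A := Nat.le_floor (by exact_mod_cast hYk)
  have hAr : (A : ℝ) ≤ (Y : ℝ) ^ k := Nat.floor_le (by positivity)
  set J : ℕ := Nat.clog 2 A with hJ
  -- the data of a prime
  have hch : ∀ p : ℕ, ∃ u : (ℕ × ℕ) × (Fin 3 × ℕ), p ∈ F → (u.2.2 ≤ J ∧ 0 < u.1.1 ∧ 0 < u.1.2 ∧
      Nat.Coprime u.1.1 u.1.2 ∧ IsGPF p (u.1.1 * u.1.2 * (u.1.1 + u.1.2)) ∧
      Pos u.2.1 A (2 ^ u.2.2) ⌊2 * X / 2 ^ u.2.2⌋₊ u.1 ∧
      M0 * Real.log (Pool.Agent.Lib.Pabc2.rd u.1) ≤ Pool.Agent.Lib.Pabc2.ht u.1) := by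
    intro p
    by_cases hp : p ∈ F
    swap
    · exact ⟨((0, 0), (0, 0)), fun h => absurd h hp⟩
    obtain ⟨g1, g2, a, b, c, habc, hgpf, hrad, hc⟩ := hF p hp
    obtain ⟨ha, hb, hc0, hab, hac, hbc, hsum⟩ := id habc
    obtain ⟨hpp, hpd, hmax⟩ := id hgpf
    have hp1 : (1 : ℝ) ≤ p := by exact_mod_cast hpp.one_lt.le
    have hp0 : (0 : ℝ) < p := by linarith
    have hpY : (p : ℝ) ≤ Y := by exact_mod_cast g2
    have hra : (1 : ℝ) ≤ rad a := by exact_mod_cast rad_pos a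
    have hrb : (1 : ℝ) ≤ rad b := by exact_mod_cast rad_pos b
    have hrc : (1 : ℝ) ≤ rad c := by exact_mod_cast rad_pos c
    have hrad3 : (rad a : ℝ) * rad b * rad c ≤ (p : ℝ) ^ k := by
      have := hrad
      rw [rad_mul3 habc] at this
      push_cast at this
      exact this
    have hpk : (p : ℝ) ^ k ≤ (Y : ℝ) ^ k := Real.rpow_le_rpow hp0.le hpY hk0.le
    have hpk1 : (p : ℝ) ^ k = (p : ℝ) ^ (k - 1) * p := by
      conv_lhs => rw [show k = (k - 1) + 1 by ring, Real.rpow_add hp0, Real.rpow_one]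
    have hpX : (p : ℝ) ^ (k - 1) ≤ X := Real.rpow_le_rpow hp0.le hpY (by linarith)
    -- violation
    have hviol : M0 * Real.log (Pool.Agent.Lib.Pabc2.rd (a, b)) ≤
        Pool.Agent.Lib.Pabc2.ht (a, b) := by
      have e1 : Pool.Agent.Lib.Pabc2.rd (a, b) = rad (a * b * c) := by
        unfold Pool.Agent.Lib.Pabc2.rd Pool.Agent.Lib.Pabc2.N rad
        simp only [hsum]
      have e2 : Pool.Agent.Lib.Pabc2.ht (a, b) = Real.log c := by
        unfold Pool.Agent.Lib.Pabc2.ht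
        simp only
        rw [← hsum]
        push_cast
        rfl
      rw [e1, e2]
      have hr1 : (1 : ℝ) ≤ rad (a * b * c) := by exact_mod_cast rad_pos (a * b * c)
      have l1 : Real.log (rad (a * b * c)) ≤ k * Real.log p := by
        rw [← Real.log_rpow hp0]
        exact Real.log_le_log (by linarith) hrad
      have l2 : (⌈k * M0⌉₊ : ℝ) * Real.log p ≤ Real.log c := by
        rw [← Real.log_pow]
        exact Real.log_le_log (by positivity) (by exact_mod_cast hc)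
      have l3 : 0 ≤ Real.log p := Real.log_nonneg hp1
      calc M0 * Real.log (rad (a * b * c)) ≤ M0 * (k * Real.log p) :=
            mul_le_mul_of_nonneg_left l1 (by linarith)
        _ = (k * M0) * Real.log p := by ring
        _ ≤ (⌈k * M0⌉₊ : ℝ) * Real.log p := mul_le_mul_of_nonneg_right (Nat.le_ceil _) l3
        _ ≤ Real.log c := l2
    -- the position lemma
    have pos : ∀ r1 r2 r3 : ℕ, 1 ≤ r1 → 1 ≤ r2 → 1 ≤ r3 → (r1 : ℝ) * r2 * r3 ≤ (p : ℝ) ^ k →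
        p ≤ r1 → r1 ≤ A ∧ Nat.clog 2 r2 ≤ J ∧ r2 ≤ 2 ^ Nat.clog 2 r2 ∧
        r3 ≤ ⌊2 * X / 2 ^ Nat.clog 2 r2⌋₊ := by
      intro r1 r2 r3 h1 h2 h3 h123 hpr
      have k1 : (1 : ℝ) ≤ r1 := by exact_mod_cast h1
      have k2 : (1 : ℝ) ≤ r2 := by exact_mod_cast h2
      have k3 : (1 : ℝ) ≤ r3 := by exact_mod_cast h3
      have k4 : (p : ℝ) ≤ r1 := by exact_mod_cast hpr
      have k5 : (r2 : ℝ) * r3 ≤ X := by
        refine le_trans ?_ hpX
        have : (p : ℝ) * (r2 * r3) ≤ (p : ℝ) ^ (k - 1) * p := by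
          rw [← hpk1]
          calc (p : ℝ) * (r2 * r3) ≤ r1 * (r2 * r3) :=
                mul_le_mul_of_nonneg_right k4 (by positivity)
            _ = r1 * r2 * r3 := by ring
            _ ≤ (p : ℝ) ^ k := h123
        rw [mul_comm] at this
        exact le_of_mul_le_mul_right this hp0
      have kA : ∀ u : ℕ, (u : ℝ) ≤ (p : ℝ) ^ k → u ≤ A := fun u hu =>
        Nat.le_floor (hu.trans hpk)
      have k23 : (1 : ℝ) ≤ r2 * r3 := one_le_mul_of_one_le_of_one_le k2 k3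
      have k13 : (1 : ℝ) ≤ r1 * r3 := one_le_mul_of_one_le_of_one_le k1 k3
      refine ⟨kA r1 ?_, Nat.clog_mono_right 2 (kA r2 ?_), Nat.le_pow_clog one_lt_two _, ?_⟩
      · refine le_trans ?_ h123
        nlinarith
      · refine le_trans ?_ h123
        nlinarith
      · apply Nat.le_floor
        rw [le_div_iff₀ (by positivity)]
        have k6 : ((2 : ℝ) ^ Nat.clog 2 r2) ≤ 2 * r2 := by exact_mod_cast pow_clog_le h2
        calc (r3 : ℝ) * 2 ^ Nat.clog 2 r2 ≤ r3 * (2 * r2) :=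
              mul_le_mul_of_nonneg_left k6 (by positivity)
          _ = 2 * (r2 * r3) := by ring
          _ ≤ 2 * X := by linarith
    have hgpf' : IsGPF p (a * b * (a + b)) := by
      rw [hsum]
      exact hgpf
    rcases (hpp.dvd_mul.1 hpd) with h | h
    · rcases (hpp.dvd_mul.1 h) with h | h
      · obtain ⟨q1, q2, q3, q4⟩ := pos (rad a) (rad b) (rad c) (rad_pos _) (rad_pos _) (rad_pos _)
          hrad3 (le_rad hpp ha.ne' h)
        refine ⟨((a, b), (0, Nat.clog 2 (rad b))), fun _ => ⟨q2, ha, hb, hab, hgpf', ?_, hviol⟩⟩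
        left
        simp only [hsum]
        exact ⟨trivial, q1, q3, q4⟩
      · obtain ⟨q1, q2, q3, q4⟩ := pos (rad b) (rad a) (rad c) (rad_pos _) (rad_pos _) (rad_pos _)
          (by rw [mul_comm (rad b : ℝ)]; exact hrad3) (le_rad hpp hb.ne' h)
        refine ⟨((a, b), (1, Nat.clog 2 (rad a))), fun _ => ⟨q2, ha, hb, hab, hgpf', ?_, hviol⟩⟩
        right
        left
        simp only [hsum]
        exact ⟨trivial, q1, q3, q4⟩
    · obtain ⟨q1, q2, q3, q4⟩ := pos (rad c) (rad a) (rad b) (rad_pos _) (rad_pos _) (rad_pos _)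
        (by rw [mul_assoc, mul_comm]; exact hrad3) (le_rad hpp hc0.ne' h)
      refine ⟨((a, b), (2, Nat.clog 2 (rad a))), fun _ => ⟨q2, ha, hb, hab, hgpf', ?_, hviol⟩⟩
      right
      right
      simp only [hsum]
      exact ⟨trivial, q1, q3, q4⟩
  choose w hw using hch
  have hmap : ∀ p ∈ F, (w p).2 ∈ (Finset.univ : Finset (Fin 3)) ×ˢ Finset.range (J + 1) := by
    intro p hp
    rw [Finset.mem_product, Finset.mem_range]
    exact ⟨Finset.mem_univ _, Nat.lt_succ_of_le (hw p hp).1⟩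
  have hinj : Set.InjOn (fun p => (w p).1) (F : Set ℕ) := by
    intro p hp q hq hpq
    simp only at hpq
    obtain ⟨-, -, -, -, g1, -⟩ := hw p hp
    obtain ⟨-, -, -, -, g2, -⟩ := hw q hq
    rw [← hpq] at g2
    exact le_antisymm (g2.2.2 p g1.1 g1.2.1) (g1.2.2 q g2.1 g2.2.1)
  have hclass : ∀ sj ∈ (Finset.univ : Finset (Fin 3)) ×ˢ Finset.range (J + 1),
      ((F.filter (fun p => (w p).2 = sj)).card : ℝ) ≤
        K * Real.sqrt (2 * X) * ((A : ℝ) * (2 * X)) ^ (ε / (4 * k)) := by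
    rintro ⟨s, j⟩ -
    rcases (F.filter (fun p => (w p).2 = (s, j))).eq_empty_or_nonempty with he | ⟨p0, hp0⟩
    · rw [he]
      simp only [Finset.card_empty, Nat.cast_zero]
      positivity
    rw [← Finset.card_image_of_injOn (f := fun p => (w p).1) (hinj.mono (fun p hp =>
      (Finset.mem_filter.1 hp).1))]
    have hC1 : 1 ≤ ⌊2 * X / 2 ^ j⌋₊ := by
      obtain ⟨hp0F, hp0s⟩ := Finset.mem_filter.1 hp0
      obtain ⟨-, -, -, -, -, g, -⟩ := hw p0 hp0F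
      rw [hp0s] at g
      rcases g with g | g | g
      · exact (rad_pos _).trans_le g.2.2.2
      · exact (rad_pos _).trans_le g.2.2.2
      · exact (rad_pos _).trans_le g.2.2.2
    refine class_bound hK (by positivity) hbox s A (2 ^ j) ⌊2 * X / 2 ^ j⌋₊ hA1
      (Nat.one_le_two_pow) hC1 (2 * X) ?_ _ ?_
    · have h1 : ((⌊2 * X / 2 ^ j⌋₊ : ℕ) : ℝ) ≤ 2 * X / 2 ^ j := Nat.floor_le (by positivity)
      calc (((2 ^ j : ℕ) : ℝ)) * ((⌊2 * X / 2 ^ j⌋₊ : ℕ) : ℝ) ≤ (2 : ℝ) ^ j * (2 * X / 2 ^ j) := by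
            push_cast
            exact mul_le_mul_of_nonneg_left h1 (by positivity)
        _ = 2 * X := by field_simp
    · intro t ht
      obtain ⟨p, hp, rfl⟩ := Finset.mem_image.1 ht
      obtain ⟨hpF, hps⟩ := Finset.mem_filter.1 hp
      obtain ⟨-, g1, g2, g3, -, g4, g5⟩ := hw p hpF
      rw [hps] at g4
      exact ⟨g1, g2, g3, g4, g5⟩
  have hAX : ((A : ℝ) * (2 * X)) ^ (ε / (4 * k)) ≤ (2 : ℝ) ^ (ε / (4 * k)) * (Y : ℝ) ^ (ε / 2) := by
    have h1 : (A : ℝ) * (2 * X) ≤ 2 * (Y : ℝ) ^ (2 * k) := by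
      calc (A : ℝ) * (2 * X) ≤ (Y : ℝ) ^ k * (2 * (Y : ℝ) ^ k) := by
            refine mul_le_mul hAr ?_ (by positivity) (by positivity)
            have : X ≤ (Y : ℝ) ^ k := Real.rpow_le_rpow_of_exponent_le hYr (by linarith)
            linarith
        _ = 2 * (Y : ℝ) ^ (2 * k) := by
            rw [two_mul k, Real.rpow_add hY0]
            ring
    calc ((A : ℝ) * (2 * X)) ^ (ε / (4 * k)) ≤ (2 * (Y : ℝ) ^ (2 * k)) ^ (ε / (4 * k)) :=
          Real.rpow_le_rpow (by positivity) h1 (by positivity)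
      _ = (2 : ℝ) ^ (ε / (4 * k)) * (Y : ℝ) ^ (ε / 2) := by
          rw [Real.mul_rpow (by norm_num) (by positivity), ← Real.rpow_mul hY0.le]
          congr 2
          field_simp
          ring
  have hsX : Real.sqrt (2 * X) = Real.sqrt 2 * (Y : ℝ) ^ ((k - 1) / 2) := by
    rw [Real.sqrt_mul (by norm_num), hX, Real.sqrt_eq_rpow ((Y : ℝ) ^ (k - 1)),
      ← Real.rpow_mul hY0.le]
    congr 2
    ring
  calc (F.card : ℝ) = ∑ sj ∈ (Finset.univ : Finset (Fin 3)) ×ˢ Finset.range (J + 1),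
        ((F.filter (fun p => (w p).2 = sj)).card : ℝ) := by
        exact_mod_cast Finset.card_eq_sum_card_fiberwise hmap
    _ ≤ ∑ _sj ∈ (Finset.univ : Finset (Fin 3)) ×ˢ Finset.range (J + 1),
        K * Real.sqrt (2 * X) * ((A : ℝ) * (2 * X)) ^ (ε / (4 * k)) := Finset.sum_le_sum hclass
    _ = 3 * ((J : ℝ) + 1) * (K * Real.sqrt (2 * X) * ((A : ℝ) * (2 * X)) ^ (ε / (4 * k))) := by
        rw [Finset.sum_const, Finset.card_product, Finset.card_univ, Fintype.card_fin,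
          Finset.card_range, nsmul_eq_mul]
        push_cast
        ring
    _ ≤ 3 * ((J : ℝ) + 1) * (K * (Real.sqrt 2 * (Y : ℝ) ^ ((k - 1) / 2)) *
        ((2 : ℝ) ^ (ε / (4 * k)) * (Y : ℝ) ^ (ε / 2))) := by
        rw [hsX]
        refine mul_le_mul_of_nonneg_left ?_ (by positivity)
        exact mul_le_mul_of_nonneg_left hAX (by positivity)
    _ = (3 * ((J : ℝ) + 1) * K * (Real.sqrt 2 * (2 : ℝ) ^ (ε / (4 * k)))) *
        ((Y : ℝ) ^ ((k - 1) / 2) * (Y : ℝ) ^ (ε / 2)) := by ring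
    _ ≤ (Y : ℝ) ^ (ε / 2) * ((Y : ℝ) ^ ((k - 1) / 2) * (Y : ℝ) ^ (ε / 2)) :=
        mul_le_mul_of_nonneg_right (hY1 Y hYY1) (by positivity)
    _ = (Y : ℝ) ^ ((k - 1) / 2 + ε) := by
        rw [← Real.rpow_add hY0, ← Real.rpow_add hY0]
        congr 1
        ring

/-- one sparse set of greatest primes, absolute exponent -/
theorem main2 (k ε : ℝ) (hk : 1 ≤ k) (hε : 0 < ε) : ∃ (E : Set ℕ) (M : ℕ),
    (∀ N : ℕ, 1 ≤ N → ((E ∩ Set.Icc 1 N).ncard : ℝ) ≤ (N : ℝ) ^ ((k - 1) / 2 + ε)) ∧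
    ∀ P a b c : ℕ, AbcTriple a b c → IsGPF P (a * b * c) → (rad (a * b * c) : ℝ) ≤ (P : ℝ) ^ k →
      P ∉ E → c < P ^ M := by
  classical
  obtain ⟨M, Y0, H⟩ := dyadic2 k (ε / 2) hk (by positivity)
  obtain ⟨X0, H0⟩ := sparse_of (Bad2 k M) ((k - 1) / 2 + ε / 2) (ε / 2)
    (by
      have : 0 ≤ (k - 1) / 2 := by linarith
      linarith) (by positivity) Y0 H
  obtain ⟨R0, hR0⟩ := height
  set R : ℕ := max R0 ⌈(X0 : ℝ) ^ k⌉₊ with hR
  set C : ℕ := ⌈Real.exp ((R : ℝ) ^ 3)⌉₊ with hC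
  refine ⟨{p | X0 < p ∧ Bad2 k M p}, M + C, ?_, ?_⟩
  · intro N hN
    refine ncard_le_of _ _ _ fun F hF => ?_
    have := H0 X0 le_rfl N F fun m hm => by
      obtain ⟨⟨h1, h2⟩, h3⟩ := hF m hm
      exact ⟨h1, h3, h2⟩
    rwa [show (k - 1) / 2 + ε / 2 + ε / 2 = (k - 1) / 2 + ε by ring] at this
  · intro P a b c habc hP hrad hPE
    have hP2 : 2 ≤ P := hP.1.two_le
    by_cases hX : X0 < P
    · by_contra hcon
      refine hPE ⟨hX, a, b, c, habc, hP, hrad, ?_⟩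
      calc P ^ M ≤ P ^ (M + C) := Nat.pow_le_pow_right (by omega) (by omega)
        _ ≤ c := not_lt.1 hcon
    · have h1 : rad (a * b * c) ≤ R := by
        refine le_trans ?_ (le_max_right _ _)
        have h2 : (rad (a * b * c) : ℝ) ≤ (X0 : ℝ) ^ k :=
          hrad.trans (Real.rpow_le_rpow (by positivity) (by exact_mod_cast not_lt.1 hX)
            (by linarith))
        exact_mod_cast h2.trans (Nat.le_ceil _)
      have h2 := hR0 R (le_max_left _ _) a b c habc h1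
      have h3' : (c : ℝ) ≤ (⌈Real.exp ((R : ℝ) ^ 3)⌉₊ : ℝ) := h2.trans (Nat.le_ceil _)
      have h3 : c ≤ C := Nat.cast_le.1 h3'
      calc c ≤ C := h3
        _ < 2 ^ C := Nat.lt_two_pow_self
        _ ≤ P ^ C := Nat.pow_le_pow_left hP2 _
        _ ≤ P ^ (M + C) := Nat.pow_le_pow_right (by omega) (by omega)

end Pool.Agent.Lib.AbcThin
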