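import Mathlib
import Pool.Agent.Lib.AbcThin.Absolute2

namespace Pool.Agent.Lib.AbcThin.Cand

/-- The radical of `n`: the product of the distinct primes dividing `n`. -/
def rad (n : ℕ) : ℕ := ∏ p ∈ n.primeFactors, p

/-- `(a, b, c)` is an abc-triple: pairwise coprime positive integers with `a + b = c`. -/
def AbcTriple (a b c : ℕ) : Prop :=
  0 < a ∧ 0 < b ∧ 0 < c ∧ a.Coprime b ∧ a.Coprime c ∧ b.Coprime c ∧ a + b = c

/-- `P` is the greatest prime factor of `n`. -/
def IsGreatestPrimeFactor (P n : ℕ) : Prop :=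
  P.Prime ∧ P ∣ n ∧ ∀ q : ℕ, q.Prime → q ∣ n → q ≤ P

/-- `m` is a product of `k` powers (with arbitrary exponents `≥ 0`) of positive integers `≤ B`. -/
def Powers (k B m : ℕ) : Prop :=
  ∃ x e : Fin k → ℕ, (∀ i, 1 ≤ x i ∧ x i ≤ B) ∧ m = ∏ i, x i ^ e i

/-- The number of different exponents in the prime factorisation of `n`. -/
def numExponents (n : ℕ) : ℕ := (n.primeFactors.image n.factorization).card

/-- The abc-triples `(a, b, c)` with `c ≥ Y ^ M` whose members are products of `k` powers of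
positive integers `≤ Y`. -/
def violators (k M Y : ℕ) : Set (ℕ × ℕ × ℕ) :=
  {t | AbcTriple t.1 t.2.1 t.2.2 ∧ Powers k Y t.1 ∧ Powers k Y t.2.1 ∧ Powers k Y t.2.2 ∧
    Y ^ M ≤ t.2.2}

theorem powers_mono {k B B' m : ℕ} (h : B ≤ B') (hm : Powers k B m) : Powers k B' m := by
  obtain ⟨x, e, hx, rfl⟩ := hm
  exact ⟨x, e, fun i => ⟨(hx i).1, (hx i).2.trans h⟩, rfl⟩

/-- a product over a finset with at most `k` elements is a product of `k` powers -/
theorem powers_of_prod {ι : Type*} (s : Finset ι) (x e : ι → ℕ) (k B : ℕ) (hs : s.card ≤ k)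
    (hB : 1 ≤ B) (hx : ∀ i ∈ s, 1 ≤ x i ∧ x i ≤ B) : Powers k B (∏ i ∈ s, x i ^ e i) := by
  classical
  obtain ⟨d, rfl⟩ := Nat.exists_eq_add_of_le hs
  have h1 : ∏ i ∈ s, x i ^ e i =
      ∏ i : Fin s.card, x (s.equivFin.symm i : ι) ^ e (s.equivFin.symm i : ι) := by
    rw [← Finset.prod_coe_sort s (fun i => x i ^ e i)]
    exact (Fintype.prod_equiv s.equivFin.symm _ _ (fun _ => rfl)).symm
  refine ⟨Fin.append (fun i : Fin s.card => x (s.equivFin.symm i : ι)) (fun _ : Fin d => 1),
    Fin.append (fun i : Fin s.card => e (s.equivFin.symm i : ι)) (fun _ : Fin d => 0), ?_, ?_⟩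
  · intro i
    refine Fin.addCases (fun i => ?_) (fun i => ?_) i
    · rw [Fin.append_left]
      exact hx _ (s.equivFin.symm i).2
    · rw [Fin.append_right]
      exact ⟨le_rfl, hB⟩
  · rw [h1, Fin.prod_univ_add]
    simp only [Fin.append_left, Fin.append_right, one_pow, Finset.prod_const_one, mul_one]

/-- `d` is the product of at most `ω(N)` powers of its primes, `d ∣ N` -/
theorem powers_primes {N d B : ℕ} (hN : N ≠ 0) (hd : d ∣ N) (hB : 1 ≤ B)
    (h : ∀ q : ℕ, q.Prime → q ∣ N → q ≤ B) : Powers N.primeFactors.card B d := by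
  have hd0 : d ≠ 0 := fun h0 => hN (by rw [h0] at hd; exact Nat.eq_zero_of_zero_dvd hd)
  have h1 : d = ∏ p ∈ N.primeFactors, p ^ d.factorization p := by
    conv_lhs => rw [← Nat.prod_factorization_pow_eq_self hd0]
    exact Finsupp.prod_of_support_subset _ (Nat.primeFactors_mono hd hN) _ (fun p _ => pow_zero p)
  rw [h1]
  exact powers_of_prod _ (fun p => p) (fun p => d.factorization p) _ _ le_rfl hB fun p hp =>
    ⟨(Nat.prime_of_mem_primeFactors hp).pos, h p (Nat.prime_of_mem_primeFactors hp)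
      (Nat.dvd_of_mem_primeFactors hp)⟩

/-- a unitary divisor `d` of `N` is a product of at most `numExponents N` powers of divisors of
`rad N` -/
theorem powers_exponents {N d : ℕ} (hN : N ≠ 0) (hd : d ∣ N) (hcop : d.Coprime (N / d)) :
    Powers (numExponents N) (rad N) d := by
  classical
  have hd0 : d ≠ 0 := fun h0 => hN (by rw [h0] at hd; exact Nat.eq_zero_of_zero_dvd hd)
  have hradpos : 0 < rad N := Finset.prod_pos fun p hp => (Nat.prime_of_mem_primeFactors hp).pos
  have hfac : ∀ p ∈ d.primeFactors, d.factorization p = N.factorization p := by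
    intro p hp
    have hpd := Nat.dvd_of_mem_primeFactors hp
    have hpp := Nat.prime_of_mem_primeFactors hp
    have h0 : (N / d).factorization p = 0 := by
      apply Nat.factorization_eq_zero_of_not_dvd
      intro hdiv
      have := Nat.dvd_gcd hpd hdiv
      rw [hcop] at this
      exact hpp.one_lt.ne' (Nat.dvd_one.1 this)
    have h1 : N = d * (N / d) := (Nat.mul_div_cancel' hd).symm
    have hnd : N / d ≠ 0 := fun h => hN (by rw [h1, h, mul_zero])
    conv_rhs => rw [h1]
    rw [Nat.factorization_mul hd0 hnd, Finsupp.add_apply, h0, add_zero]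
  set s := N.primeFactors.image N.factorization with hs
  have hmaps : ∀ p ∈ d.primeFactors, N.factorization p ∈ s := fun p hp =>
    Finset.mem_image_of_mem _ (Nat.primeFactors_mono hd hN hp)
  have h1 : d = ∏ e ∈ s, (∏ p ∈ d.primeFactors with N.factorization p = e, p) ^ e := by
    conv_lhs => rw [← Nat.prod_factorization_pow_eq_self hd0]
    change ∏ p ∈ d.primeFactors, p ^ d.factorization p = _
    rw [Finset.prod_congr rfl (fun p hp => by rw [hfac p hp]),
      ← Finset.prod_fiberwise_of_maps_to hmaps]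
    refine Finset.prod_congr rfl fun e _ => ?_
    rw [← Finset.prod_pow]
    refine Finset.prod_congr rfl fun p hp => ?_
    rw [(Finset.mem_filter.1 hp).2]
  conv_rhs => rw [h1]
  refine powers_of_prod s _ (fun e => e) _ _ le_rfl hradpos fun e _ => ?_
  have hsub : (d.primeFactors.filter (fun p => N.factorization p = e)) ⊆ N.primeFactors :=
    (Finset.filter_subset _ _).trans (Nat.primeFactors_mono hd hN)
  constructor
  · exact Finset.prod_pos fun p hp =>
      (Nat.prime_of_mem_primeFactors (Finset.mem_filter.1 hp).1).pos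
  · exact Nat.le_of_dvd hradpos (Finset.prod_dvd_prod_of_subset _ _ _ hsub)

theorem parts_dvd (a b c : ℕ) : a ∣ a * b * c ∧ b ∣ a * b * c ∧ c ∣ a * b * c :=
  ⟨⟨b * c, by ring⟩, ⟨a * c, by ring⟩, ⟨a * b, by ring⟩⟩

theorem parts_div {a b c : ℕ} (h : AbcTriple a b c) : a.Coprime (a * b * c / a) ∧
    b.Coprime (a * b * c / b) ∧ c.Coprime (a * b * c / c) := by
  obtain ⟨ha, hb, hc, h1, h2, h3, -⟩ := h
  refine ⟨?_, ?_, ?_⟩
  · rw [show a * b * c = a * (b * c) by ring, Nat.mul_div_cancel_left _ ha]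
    exact Nat.Coprime.mul_right h1 h2
  · rw [show a * b * c = b * (a * c) by ring, Nat.mul_div_cancel_left _ hb]
    exact Nat.Coprime.mul_right h1.symm h3
  · rw [show a * b * c = c * (a * b) by ring, Nat.mul_div_cancel_left _ hc]
    exact Nat.Coprime.mul_right h2.symm h3.symm

/-- For every `ε > 0` and `N` there are a set `E` of integers `> N` with at most `x ^ ε` elements up
to `x`, for every `x ≥ 1`, and integers `M 0, M 1, M 2, ...` such that, for all abc-triples
`(a, b, c)`:
* (1) if the greatest prime factor `P` of `a b c` is not in `E`, then `c < P ^ M w`, `w` the number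
  of the primes dividing `a b c`;
* (3) if `rad (a b c) ∉ E`, then `c < rad (a b c) ^ M v`, `v` the number of different exponents in
  the prime factorisation of `a b c`;
* (4) if `(a, b, c) = (A x ^ p, B y ^ q, C z ^ r)`, `m = max (x, y, z) ≥ 2`, `m ∉ E` and
  `A, B, C ≤ m ^ k`, then `min (p, q, r) < M (k + 2)`;
* (5) if `m ∣ a b c`, `m ∉ E`, and `a`, `b`, `c` are products of `k` powers of positive integers
  `≤ m ^ k`, then `c < m ^ M k`.
(6) For every `k` and `ε > 0` there is `M` such that, for all large `Y`, at most `Y ^ ε`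
abc-triples, of any size, whose members are products of `k` powers of positive integers `≤ Y`,
have `c ≥ Y ^ M`.
(2) For all real `k ≥ 1` and `ε > 0` there are `M` and a set `E` with at most
`x ^ ((k - 1) / 2 + ε)` elements up to `x`, for every `x ≥ 1`, such that every abc-triple with
`rad (a b c) ≤ P ^ k`, the greatest prime factor `P` of `a b c` not in `E`, satisfies
`c < P ^ M`. -/
theorem result (ε : ℝ) (hε : 0 < ε) :
    ((∀ N : ℕ, ∃ (E : Set ℕ) (M : ℕ → ℕ), (∀ m ∈ E, N < m) ∧
      (∀ x : ℕ, 1 ≤ x → ((E ∩ Set.Icc 1 x).ncard : ℝ) ≤ (x : ℝ) ^ ε) ∧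
      (∀ P a b c : ℕ, AbcTriple a b c → IsGreatestPrimeFactor P (a * b * c) → P ∉ E →
        c < P ^ M (a * b * c).primeFactors.card) ∧
      (∀ a b c : ℕ, AbcTriple a b c → rad (a * b * c) ∉ E →
        c < rad (a * b * c) ^ M (numExponents (a * b * c))) ∧
      (∀ k m A B C x y z p q r : ℕ, AbcTriple (A * x ^ p) (B * y ^ q) (C * z ^ r) →
        m = max x (max y z) → 2 ≤ m → m ∉ E → A ≤ m ^ k → B ≤ m ^ k → C ≤ m ^ k →
        min p (min q r) < M (k + 2)) ∧
      ∀ k m a b c : ℕ, AbcTriple a b c → m ∣ a * b * c → m ∉ E →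
        Powers k (m ^ k) a → Powers k (m ^ k) b → Powers k (m ^ k) c → c < m ^ M k) ∧
    ∀ k : ℕ, ∃ M Y₀ : ℕ, ∀ Y : ℕ, Y₀ ≤ Y →
      (violators k M Y).Finite ∧ ((violators k M Y).ncard : ℝ) ≤ (Y : ℝ) ^ ε) ∧
    ∀ k : ℝ, 1 ≤ k → ∃ (E : Set ℕ) (M : ℕ),
      (∀ x : ℕ, 1 ≤ x → ((E ∩ Set.Icc 1 x).ncard : ℝ) ≤ (x : ℝ) ^ ((k - 1) / 2 + ε)) ∧
      ∀ P a b c : ℕ, AbcTriple a b c → IsGreatestPrimeFactor P (a * b * c) →
        (rad (a * b * c) : ℝ) ≤ (P : ℝ) ^ k → P ∉ E → c < P ^ M := by
  classical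
  refine ⟨and_comm.1 ⟨?_, ?_⟩, fun k hk => Pool.Agent.Lib.AbcThin.main2 k ε hk hε⟩
  · intro k
    obtain ⟨M, Y0, -, H⟩ := Pool.Agent.Lib.FewY.few_powers3 k 0 ε hε
    refine ⟨M, Y0, fun Y hY => ?_⟩
    have hT : ∀ T : Finset (ℕ × ℕ × ℕ), (∀ t ∈ T, t ∈ violators k M Y) →
        (T.card : ℝ) ≤ (Y : ℝ) ^ ε := by
      intro T hT
      refine H Y hY 1 1 1 (by simp [Pool.Agent.Lib.FewX.rad]) T fun t ht => ?_
      obtain ⟨g1, g2, g3, g4, g5⟩ := hT t ht
      exact ⟨g1, ⟨_, g2, (one_mul _).symm⟩, ⟨_, g3, (one_mul _).symm⟩, ⟨_, g4, (one_mul _).symm⟩,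
        g5⟩
    have hfin : (violators k M Y).Finite := by
      by_contra hinf
      obtain ⟨F, hF, hc⟩ := (Set.not_finite.mp hinf).exists_subset_card_eq
        (⌊(Y : ℝ) ^ ε⌋₊ + 1)
      have h1 := hT F (fun t ht => hF ht)
      have h2 := Nat.lt_floor_add_one ((Y : ℝ) ^ ε)
      rw [hc] at h1
      push_cast at h1
      linarith
    refine ⟨hfin, ?_⟩
    rw [Set.ncard_eq_toFinset_card _ hfin]
    exact hT _ fun t ht => hfin.mem_toFinset.1 ht
  intro N
  obtain ⟨E, g, hE1, hE2, hg, hE3⟩ := Pool.Agent.Lib.AbcThin.main N ε hε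
  have key : ∀ k m a b c : ℕ, AbcTriple a b c → m ∣ a * b * c → m ∉ E →
      Powers k (m ^ k) a → Powers k (m ^ k) b → Powers k (m ^ k) c → c < m ^ g k := by
    intro k m a b c habc hmd hmE ha hb hc
    have hm0 : 0 < m := by
      obtain ⟨h1, h2, h3, -⟩ := id habc
      exact Nat.pos_of_dvd_of_pos hmd (by positivity)
    have hle : m ^ k ≤ m ^ (k + 1) := Nat.pow_le_pow_right hm0 (by omega)
    exact hE3 k m a b c habc hmd hmE (powers_mono hle ha) (powers_mono hle hb)
      (powers_mono hle hc)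
  have hωpos : ∀ a b c : ℕ, AbcTriple a b c → (a * b * c).primeFactors.Nonempty := by
    intro a b c habc
    obtain ⟨h1, h2, h3, -, -, -, hsum⟩ := habc
    rw [Nat.nonempty_primeFactors]
    have : 2 ≤ c := by omega
    have : 1 ≤ a * b := Nat.mul_pos h1 h2
    nlinarith
  refine ⟨E, g, hE1, hE2, ?_, ?_, ?_, key⟩
  · rintro P a b c habc ⟨hP, hPd, hmax⟩ hPE
    obtain ⟨h1, h2, h3, -⟩ := id habc
    have hne : a * b * c ≠ 0 := by positivity
    set w := (a * b * c).primeFactors.card with hw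
    have hw0 : 0 < w := Finset.card_pos.2 (hωpos a b c habc)
    have hB : P ≤ P ^ w := Nat.le_self_pow hw0.ne' P
    obtain ⟨d1, d2, d3⟩ := parts_dvd a b c
    have hB' : ∀ q : ℕ, q.Prime → q ∣ a * b * c → q ≤ P ^ w := fun q hq hqd =>
      (hmax q hq hqd).trans hB
    have hB1 : 1 ≤ P ^ w := pow_pos hP.pos w
    exact key w P a b c habc hPd hPE (powers_primes hne d1 hB1 hB') (powers_primes hne d2 hB1 hB')
      (powers_primes hne d3 hB1 hB')
  · intro a b c habc hrE
    obtain ⟨h1, h2, h3, -⟩ := id habc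
    have hne : a * b * c ≠ 0 := by positivity
    set v := numExponents (a * b * c) with hv
    have hv0 : 0 < v := Finset.card_pos.2 ((hωpos a b c habc).image _)
    have hB : rad (a * b * c) ≤ rad (a * b * c) ^ v := Nat.le_self_pow hv0.ne' _
    obtain ⟨d1, d2, d3⟩ := parts_dvd a b c
    obtain ⟨e1, e2, e3⟩ := parts_div habc
    exact key v (rad (a * b * c)) a b c habc (Nat.prod_primeFactors_dvd _) hrE
      (powers_mono hB (powers_exponents hne d1 e1)) (powers_mono hB (powers_exponents hne d2 e2))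
      (powers_mono hB (powers_exponents hne d3 e3))
  · intro κ m A B C x y z p q r habc hm hm2 hmE hA hB hC
    obtain ⟨h1, h2, h3, -, -, -, hsum⟩ := id habc
    have hA0 : 0 < A := Nat.pos_of_ne_zero (by rintro rfl; simp at h1)
    have hB0 : 0 < B := Nat.pos_of_ne_zero (by rintro rfl; simp at h2)
    have hC0 : 0 < C := Nat.pos_of_ne_zero (by rintro rfl; simp at h3)
    by_contra hcon
    have hgk := hg (κ + 2)
    obtain ⟨hp, hq, hr⟩ : g (κ + 2) ≤ p ∧ g (κ + 2) ≤ q ∧ g (κ + 2) ≤ r := by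
      have := not_lt.1 hcon
      exact ⟨this.trans (min_le_left _ _), this.trans ((min_le_right _ _).trans (min_le_left _ _)),
        this.trans ((min_le_right _ _).trans (min_le_right _ _))⟩
    have hx0 : 0 < x := Nat.pos_of_ne_zero (by
      rintro rfl
      rw [zero_pow (by omega), mul_zero] at h1
      exact lt_irrefl _ h1)
    have hy0 : 0 < y := Nat.pos_of_ne_zero (by
      rintro rfl
      rw [zero_pow (by omega), mul_zero] at h2
      exact lt_irrefl _ h2)
    have hz0 : 0 < z := Nat.pos_of_ne_zero (by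
      rintro rfl
      rw [zero_pow (by omega), mul_zero] at h3
      exact lt_irrefl _ h3)
    have hxm : x ≤ m := hm ▸ le_max_left _ _
    have hym : y ≤ m := hm ▸ (le_max_left _ _).trans (le_max_right _ _)
    have hzm : z ≤ m := hm ▸ (le_max_right _ _).trans (le_max_right _ _)
    have hm0 : 0 < m := by omega
    have hmm : m ≤ m ^ (κ + 2) := Nat.le_self_pow (by omega) m
    have hmκ : m ^ κ ≤ m ^ (κ + 2) := Nat.pow_le_pow_right hm0 (by omega)
    have hpow : ∀ D u e : ℕ, 0 < D → D ≤ m ^ κ → 0 < u → u ≤ m →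
        Powers (κ + 2) (m ^ (κ + 2)) (D * u ^ e) := by
      intro D u e hD hDm hu hum
      have := powers_of_prod (Finset.univ : Finset (Fin 2)) ![D, u] ![1, e] (κ + 2) (m ^ (κ + 2))
        (by simp) (hm0.trans_le hmm) (by
          intro i _
          fin_cases i
          · exact ⟨hD, hDm.trans hmκ⟩
          · exact ⟨hu, hum.trans hmm⟩)
      simpa [Fin.prod_univ_two] using this
    have hdvd : m ∣ A * x ^ p * (B * y ^ q) * (C * z ^ r) := by
      obtain ⟨d1, d2, d3⟩ := parts_dvd (A * x ^ p) (B * y ^ q) (C * z ^ r)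
      have hc : m = x ∨ m = y ∨ m = z := by
        rcases le_total x (max y z) with h | h
        · rw [max_eq_right h] at hm
          rcases le_total y z with h' | h'
          · rw [max_eq_right h'] at hm
            exact Or.inr (Or.inr hm)
          · rw [max_eq_left h'] at hm
            exact Or.inr (Or.inl hm)
        · rw [max_eq_left h] at hm
          exact Or.inl hm
      rcases hc with hc | hc | hc
      · rw [hc]
        exact ((dvd_pow_self x (by omega)).mul_left A).trans d1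
      · rw [hc]
        exact ((dvd_pow_self y (by omega)).mul_left B).trans d2
      · rw [hc]
        exact ((dvd_pow_self z (by omega)).mul_left C).trans d3
    have hlt := key (κ + 2) m _ _ _ habc hdvd hmE (hpow A x p hA0 hA hx0 hxm)
      (hpow B y q hB0 hB hy0 hym) (hpow C z r hC0 hC hz0 hzm)
    have hge : m ^ g (κ + 2) ≤ C * z ^ r := by
      have kx : x ^ g (κ + 2) ≤ C * z ^ r :=
        calc x ^ g (κ + 2) ≤ x ^ p := Nat.pow_le_pow_right hx0 hp
          _ ≤ A * x ^ p := Nat.le_mul_of_pos_left _ hA0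
          _ ≤ C * z ^ r := by omega
      have ky : y ^ g (κ + 2) ≤ C * z ^ r :=
        calc y ^ g (κ + 2) ≤ y ^ q := Nat.pow_le_pow_right hy0 hq
          _ ≤ B * y ^ q := Nat.le_mul_of_pos_left _ hB0
          _ ≤ C * z ^ r := by omega
      have kz : z ^ g (κ + 2) ≤ C * z ^ r :=
        calc z ^ g (κ + 2) ≤ z ^ r := Nat.pow_le_pow_right hz0 hr
          _ ≤ C * z ^ r := Nat.le_mul_of_pos_left _ hC0
      rcases le_total x (max y z) with h | h
      · rw [max_eq_right h] at hm
        rcases le_total y z with h' | h'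
        · rw [max_eq_right h'] at hm
          rw [hm]
          exact kz
        · rw [max_eq_left h'] at hm
          rw [hm]
          exact ky
      · rw [max_eq_left h] at hm
        rw [hm]
        exact kx
    omega

end Pool.Agent.Lib.AbcThin.Cand
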