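import Pool.Agent.Lib.FewY.TrB
import Pool.Agent.Lib.Pabc10.SmallH

/-!
# AbcThin.Core: few integers are the largest base of a violating abc triple
-/

open Filter Pool.Agent.Lib.FewX Pool.Agent.Lib.FewY

namespace Pool.Agent.Lib.AbcThin

/-- `m` divides `a b c` for an abc triple `(a, b, c)` whose members are products of `n` powers of
positive integers `≤ m ^ (n + 1)` and which has `c ≥ m ^ M`. -/
def Bad (n M m : ℕ) : Prop :=
  ∃ a b c : ℕ, AbcTriple a b c ∧ Powers n (m ^ (n + 1)) a ∧ Powers n (m ^ (n + 1)) b ∧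
    Powers n (m ^ (n + 1)) c ∧ m ∣ a * b * c ∧ m ^ M ≤ c

theorem powers_mono {n X Y m : ℕ} (h : X ≤ Y) (hm : Powers n X m) : Powers n Y m := by
  obtain ⟨x, k, hx, rfl⟩ := hm
  exact ⟨x, k, fun i => ⟨(hx i).1, (hx i).2.trans h⟩, rfl⟩

theorem rad_prod {n Y a b c : ℕ} (ha : Powers n Y a) (hb : Powers n Y b) (hc : Powers n Y c) :
    rad (a * b * c) ≤ Y ^ (3 * n) := by
  obtain ⟨pa, ra⟩ := TrBAux.rad_powers ha
  obtain ⟨pb, rb⟩ := TrBAux.rad_powers hb
  obtain ⟨pc, rc⟩ := TrBAux.rad_powers hc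
  calc rad (a * b * c) ≤ rad (a * b) * rad c := TrBAux.rad_mul_le (Nat.mul_pos pa pb) pc
    _ ≤ rad a * rad b * rad c := Nat.mul_le_mul (TrBAux.rad_mul_le pa pb) le_rfl
    _ ≤ Y ^ n * Y ^ n * Y ^ n := Nat.mul_le_mul (Nat.mul_le_mul ra rb) rc
    _ = Y ^ (3 * n) := by ring

/-- dyadic count -/
theorem dyadic (n : ℕ) (ε : ℝ) (hε : 0 < ε) : ∃ M Y0 : ℕ, 2 ≤ Y0 ∧ ∀ Y : ℕ, Y0 ≤ Y →
    ∀ F : Finset ℕ, (∀ m ∈ F, Y < 2 * m ∧ m ≤ Y ∧ Bad n M m) → (F.card : ℝ) ≤ (Y : ℝ) ^ ε := by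
  classical
  obtain ⟨M1, Y1, hY1, H1⟩ := few_powers3 n 0 (ε / 2 / ((n + 1 : ℕ) : ℝ)) (by positivity)
  obtain ⟨Y2, H2⟩ := Filter.eventually_atTop.1 (Pool.Agent.Lib.Pabc10.card_smooth_le 1
    (ε / 2 / (((n + 1) * (3 * n) + 1 : ℕ) : ℝ)) one_pos (by positivity))
  refine ⟨2 * ((n + 1) * M1), max (max Y1 Y2) 4, le_trans (by norm_num) (le_max_right _ _), ?_⟩
  intro Y hY F hF
  have hYY1 : Y1 ≤ Y := (le_max_left _ _).trans ((le_max_left _ _).trans hY)
  have hYY2 : Y2 ≤ Y := (le_max_right _ _).trans ((le_max_left _ _).trans hY)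
  have hY4 : 4 ≤ Y := (le_max_right _ _).trans hY
  have hYr : (0 : ℝ) < Y := by
    have : 0 < Y := by omega
    exact_mod_cast this
  have hYpow : ∀ (j : ℕ) (δ : ℝ), 0 < j → ((Y ^ j : ℕ) : ℝ) ^ (δ / (j : ℝ)) = (Y : ℝ) ^ δ := by
    intro j δ hj
    rw [Nat.cast_pow, ← Real.rpow_natCast, ← Real.rpow_mul hYr.le]
    congr 1
    have : (j : ℝ) ≠ 0 := by positivity
    field_simp
  have hch : ∀ m : ℕ, ∃ t : ℕ × ℕ × ℕ, m ∈ F → (AbcTriple t.1 t.2.1 t.2.2 ∧
      Powers n (m ^ (n + 1)) t.1 ∧ Powers n (m ^ (n + 1)) t.2.1 ∧ Powers n (m ^ (n + 1)) t.2.2 ∧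
      m ∣ t.1 * t.2.1 * t.2.2 ∧ m ^ (2 * ((n + 1) * M1)) ≤ t.2.2) := by
    intro m
    by_cases hm : m ∈ F
    · obtain ⟨-, -, a, b, c, h1, h2, h3, h4, h5, h6⟩ := hF m hm
      exact ⟨(a, b, c), fun _ => ⟨h1, h2, h3, h4, h5, h6⟩⟩
    · exact ⟨(0, 0, 0), fun h => absurd h hm⟩
  choose w hw using hch
  have hmY : ∀ m ∈ F, m ^ (n + 1) ≤ Y ^ (n + 1) := fun m hm =>
    Nat.pow_le_pow_left (hF m hm).2.1 _
  -- the triples
  have hT : ((F.image w).card : ℝ) ≤ (Y : ℝ) ^ (ε / 2) := by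
    rw [← hYpow (n + 1) (ε / 2) (Nat.succ_pos n)]
    refine H1 (Y ^ (n + 1)) (hYY1.trans (Nat.le_self_pow (by omega) Y)) 1 1 1 (by simp [rad]) _ ?_
    intro t ht
    obtain ⟨m, hm, rfl⟩ := Finset.mem_image.1 ht
    obtain ⟨h1, h2, h3, h4, h5, h6⟩ := hw m hm
    obtain ⟨g1, g2, -⟩ := hF m hm
    refine ⟨h1, ⟨_, powers_mono (hmY m hm) h2, (one_mul _).symm⟩,
      ⟨_, powers_mono (hmY m hm) h3, (one_mul _).symm⟩,
      ⟨_, powers_mono (hmY m hm) h4, (one_mul _).symm⟩, le_trans ?_ h6⟩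
    rw [pow_mul, ← pow_mul Y]
    refine Nat.pow_le_pow_left ?_ _
    nlinarith
  -- the fibres
  have hfib : ∀ t ∈ F.image w, ((F.filter (fun m => w m = t)).card : ℝ) ≤ (Y : ℝ) ^ (ε / 2) := by
    intro t ht
    obtain ⟨m0, hm0, rfl⟩ := Finset.mem_image.1 ht
    obtain ⟨h1, h2, h3, h4, h5, h6⟩ := hw m0 hm0
    obtain ⟨g1, g2, -⟩ := hF m0 hm0
    set N := (w m0).1 * (w m0).2.1 * (w m0).2.2 with hN
    have hNpos : N ≠ 0 := by
      obtain ⟨a1, a2, a3, -⟩ := h1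
      positivity
    have hradN : ∏ p ∈ N.primeFactors, p ≤ Y ^ ((n + 1) * (3 * n) + 1) := by
      have := rad_prod (powers_mono (hmY m0 hm0) h2) (powers_mono (hmY m0 hm0) h3)
        (powers_mono (hmY m0 hm0) h4)
      calc ∏ p ∈ N.primeFactors, p ≤ (Y ^ (n + 1)) ^ (3 * n) := this
        _ = Y ^ ((n + 1) * (3 * n)) := (pow_mul _ _ _).symm
        _ ≤ Y ^ ((n + 1) * (3 * n) + 1) := Nat.pow_le_pow_right (by omega) (by omega)
    have hYn : Y ≤ Y ^ ((n + 1) * (3 * n) + 1) := Nat.le_self_pow (by omega) Y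
    rw [← hYpow ((n + 1) * (3 * n) + 1) (ε / 2) (Nat.succ_pos _)]
    exact H2 (Y ^ ((n + 1) * (3 * n) + 1)) (hYY2.trans hYn) N.primeFactors
      (F.filter (fun m => w m = w m0))
      (fun p hp => Nat.prime_of_mem_primeFactors hp) (by exact_mod_cast hradN) (by
        intro m hm
        obtain ⟨hm1, hm2⟩ := Finset.mem_filter.1 hm
        obtain ⟨k1, k2, -⟩ := hF m hm1
        obtain ⟨-, -, -, -, l5, -⟩ := hw m hm1
        rw [hm2] at l5
        refine ⟨by omega, ?_, Nat.primeFactors_mono l5 hNpos⟩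
        rw [Real.rpow_one]
        exact_mod_cast k2.trans hYn)
  calc (F.card : ℝ) = ∑ t ∈ F.image w, ((F.filter (fun m => w m = t)).card : ℝ) := by
        exact_mod_cast Finset.card_eq_sum_card_image w F
    _ ≤ ∑ _t ∈ F.image w, (Y : ℝ) ^ (ε / 2) := Finset.sum_le_sum hfib
    _ = ((F.image w).card : ℝ) * (Y : ℝ) ^ (ε / 2) := by rw [Finset.sum_const, nsmul_eq_mul]
    _ ≤ (Y : ℝ) ^ (ε / 2) * (Y : ℝ) ^ (ε / 2) :=
        mul_le_mul_of_nonneg_right hT (by positivity)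
    _ = (Y : ℝ) ^ ε := by
        rw [← Real.rpow_add hYr]
        congr 1
        ring

/-- bounded bases: bounded triples -/
theorem bounded (n X : ℕ) : ∃ C : ℕ, ∀ a b c : ℕ, AbcTriple a b c → Powers n X a → Powers n X b →
    Powers n X c → c ≤ C := by
  obtain ⟨M1, Y1, hY1, H1⟩ := few_powers3 n 0 1 one_pos
  set Y := max X Y1 with hY
  set Z : Set (ℕ × ℕ × ℕ) := {t | AbcTriple t.1 t.2.1 t.2.2 ∧ Powers n Y t.1 ∧ Powers n Y t.2.1 ∧
    Powers n Y t.2.2 ∧ Y ^ M1 ≤ t.2.2} with hZ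
  have hfin : Z.Finite := by
    by_contra hinf
    obtain ⟨F, hF, hc⟩ := (Set.not_finite.mp hinf).exists_subset_card_eq (⌊(Y : ℝ) ^ (1 : ℝ)⌋₊ + 1)
    have h1 := H1 Y (le_max_right _ _) 1 1 1 (by simp [rad]) F (fun t ht => by
      obtain ⟨g1, g2, g3, g4, g5⟩ := hF ht
      exact ⟨g1, ⟨_, g2, (one_mul _).symm⟩, ⟨_, g3, (one_mul _).symm⟩, ⟨_, g4, (one_mul _).symm⟩,
        g5⟩)
    have h2 := Nat.lt_floor_add_one ((Y : ℝ) ^ (1 : ℝ))
    rw [hc] at h1
    push_cast at h1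
    linarith
  obtain ⟨C, hC⟩ := (hfin.image (fun t : ℕ × ℕ × ℕ => t.2.2)).bddAbove
  refine ⟨max C (Y ^ M1), fun a b c h ha hb hc => ?_⟩
  by_cases hle : Y ^ M1 ≤ c
  · refine le_trans (hC ⟨(a, b, c), ?_, rfl⟩) (le_max_left _ _)
    exact ⟨h, powers_mono (le_max_left _ _) ha, powers_mono (le_max_left _ _) hb,
      powers_mono (le_max_left _ _) hc, hle⟩
  · exact (not_le.1 hle).le.trans (le_max_right _ _)

theorem ev_clog (ε : ℝ) (hε : 0 < ε) : ∀ᶠ N : ℕ in atTop,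
    ((Nat.clog 2 N : ℝ) + 1) * (2 * (N : ℝ)) ^ (ε / 2) ≤ (N : ℝ) ^ ε := by
  filter_upwards [Pool.Agent.Lib.Pabc9.ev_poly_log (2 * (2 : ℝ) ^ (ε / 2)) 1 (ε / 2) (by positivity),
    eventually_ge_atTop 1] with N hN hN1
  have hNr : (1 : ℝ) ≤ N := by exact_mod_cast hN1
  have hN0 : (0 : ℝ) < N := by linarith
  have hlog : 0 ≤ Real.log N := Real.log_nonneg hNr
  have h2 : (1 : ℝ) / 2 < Real.log 2 := by
    have := Real.log_two_gt_d9
    linarith
  have hlb : 0 ≤ Real.logb 2 N := Real.logb_nonneg one_lt_two hNr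
  have h3 : (Nat.clog 2 N : ℝ) < Real.logb 2 N + 1 := by
    rw [← Real.natCeil_logb_natCast]
    exact Nat.ceil_lt_add_one (by exact_mod_cast hlb)
  have h4 : Real.logb 2 N ≤ 2 * Real.log N := by
    unfold Real.logb
    rw [div_le_iff₀ (by linarith)]
    nlinarith
  have h5 : (Nat.clog 2 N : ℝ) + 1 ≤ 2 * (1 + Real.log N) := by linarith
  calc ((Nat.clog 2 N : ℝ) + 1) * (2 * (N : ℝ)) ^ (ε / 2)
      ≤ (2 * (1 + Real.log N)) * ((2 : ℝ) ^ (ε / 2) * (N : ℝ) ^ (ε / 2)) := by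
        rw [Real.mul_rpow (by norm_num) hN0.le]
        exact mul_le_mul_of_nonneg_right h5 (by positivity)
    _ = (2 * (2 : ℝ) ^ (ε / 2) * (1 + Real.log N) ^ 1) * (N : ℝ) ^ (ε / 2) := by ring
    _ ≤ (N : ℝ) ^ (ε / 2) * (N : ℝ) ^ (ε / 2) := mul_le_mul_of_nonneg_right hN (by positivity)
    _ = (N : ℝ) ^ ε := by
        rw [← Real.rpow_add hN0]
        congr 1
        ring

/-- sparse set -/
theorem sparse (n : ℕ) (ε : ℝ) (hε : 0 < ε) : ∃ M X0 : ℕ, ∀ X : ℕ, X0 ≤ X → ∀ N : ℕ,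
    ∀ F : Finset ℕ, (∀ m ∈ F, X < m ∧ m ≤ N ∧ Bad n M m) → (F.card : ℝ) ≤ (N : ℝ) ^ ε := by
  classical
  obtain ⟨M, Y0, hY0, H⟩ := dyadic n (ε / 2) (by positivity)
  have hev := ev_clog ε hε
  obtain ⟨X1, hX1⟩ := Filter.eventually_atTop.1 hev
  refine ⟨M, max Y0 X1, fun X hX N F hF => ?_⟩
  have hXY : Y0 ≤ X := (le_max_left _ _).trans hX
  have hXX : X1 ≤ X := (le_max_right _ _).trans hX
  rcases F.eq_empty_or_nonempty with rfl | ⟨m1, hm1⟩
  · simp only [Finset.card_empty, Nat.cast_zero]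
    positivity
  have hN : X < N := by
    obtain ⟨g1, g2, -⟩ := hF m1 hm1
    omega
  have hNpos : 0 < N := by omega
  have hmap : ∀ m ∈ F, Nat.clog 2 m ∈ Finset.range (Nat.clog 2 N + 1) := by
    intro m hm
    rw [Finset.mem_range]
    have := Nat.clog_mono_right 2 (hF m hm).2.1
    omega
  calc (F.card : ℝ) = ∑ j ∈ Finset.range (Nat.clog 2 N + 1),
        ((F.filter (fun m => Nat.clog 2 m = j)).card : ℝ) := by
        exact_mod_cast Finset.card_eq_sum_card_fiberwise hmap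
    _ ≤ ∑ _j ∈ Finset.range (Nat.clog 2 N + 1), (2 * (N : ℝ)) ^ (ε / 2) := by
        refine Finset.sum_le_sum fun j hj => ?_
        rcases (F.filter (fun m => Nat.clog 2 m = j)).eq_empty_or_nonempty with he | ⟨m2, hm2⟩
        · rw [he]
          simp only [Finset.card_empty, Nat.cast_zero]
          positivity
        · obtain ⟨hm2F, hm2j⟩ := Finset.mem_filter.1 hm2
          have hm2X := (hF m2 hm2F).1
          have hle : m2 ≤ 2 ^ j := by
            rw [← hm2j]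
            exact Nat.le_pow_clog one_lt_two m2
          have h1 := H (2 ^ j) (by omega) (F.filter (fun m => Nat.clog 2 m = j)) (by
            intro m hm
            obtain ⟨hmF, hmj⟩ := Finset.mem_filter.1 hm
            obtain ⟨g1, g2, g3⟩ := hF m hmF
            refine ⟨?_, ?_, g3⟩
            · have hm2' : 1 < m := by omega
              have := Nat.pow_pred_clog_lt_self one_lt_two hm2'
              rw [hmj] at this
              have hj0 : 0 < j := by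
                rw [← hmj]
                exact Nat.clog_pos one_lt_two hm2'
              obtain ⟨i, rfl⟩ : ∃ i, j = i + 1 := ⟨j - 1, by omega⟩
              simp only [Nat.pred_eq_sub_one, Nat.add_sub_cancel] at this
              rw [pow_succ]
              omega
            · rw [← hmj]
              exact Nat.le_pow_clog one_lt_two m)
          refine h1.trans ?_
          refine Real.rpow_le_rpow (by positivity) ?_ (by positivity)
          -- 2 ^ j ≤ 2 N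
          have hm2' : 1 < m2 := by omega
          have h3 := Nat.pow_pred_clog_lt_self one_lt_two hm2'
          rw [hm2j] at h3
          have hj0 : 0 < j := by
            rw [← hm2j]
            exact Nat.clog_pos one_lt_two hm2'
          obtain ⟨i, rfl⟩ : ∃ i, j = i + 1 := ⟨j - 1, by omega⟩
          simp only [Nat.pred_eq_sub_one, Nat.add_sub_cancel] at h3
          have h4 : m2 ≤ N := (hF m2 hm2F).2.1
          have h5 : 2 ^ (i + 1) ≤ 2 * N := by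
            rw [pow_succ]
            omega
          exact_mod_cast h5
    _ = ((Nat.clog 2 N : ℝ) + 1) * (2 * (N : ℝ)) ^ (ε / 2) := by
        rw [Finset.sum_const, Finset.card_range, nsmul_eq_mul]
        push_cast
        ring
    _ ≤ (N : ℝ) ^ ε := hX1 N (by omega)

end Pool.Agent.Lib.AbcThin
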