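import Pool.Agent.Lib.AbcThin.Core

/-!
# AbcThin.Diag: one sparse set for all numbers of bases
-/

open Filter Pool.Agent.Lib.FewX Pool.Agent.Lib.FewY

namespace Pool.Agent.Lib.AbcThin

theorem ncard_le_of (E : Set ℕ) (N : ℕ) (R : ℝ)
    (h : ∀ F : Finset ℕ, (∀ m ∈ F, m ∈ E ∧ m ≤ N) → (F.card : ℝ) ≤ R) :
    ((E ∩ Set.Icc 1 N).ncard : ℝ) ≤ R := by
  have hfin : (E ∩ Set.Icc 1 N).Finite := (Set.finite_Icc 1 N).inter_of_right _
  rw [Set.ncard_eq_toFinset_card _ hfin]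
  refine h _ fun m hm => ?_
  have := hfin.mem_toFinset.1 hm
  exact ⟨this.1, this.2.2⟩

/-- one sparse set `E` for all `k` -/
theorem main (z : ℕ) (ε : ℝ) (hε : 0 < ε) : ∃ (E : Set ℕ) (g : ℕ → ℕ), (∀ m ∈ E, z < m) ∧
    (∀ N : ℕ, 1 ≤ N → ((E ∩ Set.Icc 1 N).ncard : ℝ) ≤ (N : ℝ) ^ ε) ∧
    (∀ k, 1 ≤ g k) ∧
    ∀ k m a b c : ℕ, AbcTriple a b c → m ∣ a * b * c → m ∉ E → Powers k (m ^ (k + 1)) a →
      Powers k (m ^ (k + 1)) b → Powers k (m ^ (k + 1)) c → c < m ^ g k := by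
  classical
  have h := fun k : ℕ => sparse k (ε / 2) (by positivity)
  choose M X0 hX0 using h
  have hev : ∀ᶠ N : ℕ in atTop, ((Nat.clog 2 N : ℝ) + 1) * (N : ℝ) ^ (ε / 2) ≤ (N : ℝ) ^ ε := by
    filter_upwards [ev_clog ε hε] with N hN
    refine le_trans ?_ hN
    apply mul_le_mul_of_nonneg_left _ (by positivity)
    apply Real.rpow_le_rpow (by positivity) _ (by positivity)
    have : (0 : ℝ) ≤ N := by positivity
    linarith
  obtain ⟨X1, hX1⟩ := Filter.eventually_atTop.1 hev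
  set X : ℕ → ℕ := fun k => X0 k + z + X1 + 2 ^ k with hX
  have hXp : ∀ k, X0 k ≤ X k ∧ z ≤ X k ∧ X1 ≤ X k ∧ 2 ^ k ≤ X k := fun k => by
    have := Nat.two_pow_pos k
    simp only [hX]
    refine ⟨?_, ?_, ?_, ?_⟩ <;> omega
  set E : Set ℕ := {m | ∃ k, X k < m ∧ Bad k (M k) m} with hE
  have hbd := fun k : ℕ => bounded k (X k ^ (k + 1))
  choose C hC using hbd
  refine ⟨E, fun k => M k + C k + 1, ?_, ?_, fun k => Nat.le_add_left _ _, ?_⟩
  · rintro m ⟨k, hk, -⟩
    exact (hXp k).2.1.trans_lt hk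
  · intro N hN1
    refine ncard_le_of _ _ _ fun F hF => ?_
    rcases F.eq_empty_or_nonempty with rfl | ⟨m1, hm1⟩
    · simp only [Finset.card_empty, Nat.cast_zero]
      positivity
    have hNX : X1 ≤ N := by
      obtain ⟨⟨k, hk, -⟩, h2⟩ := hF m1 hm1
      exact (hXp k).2.2.1.trans (hk.le.trans h2)
    have hch : ∀ m : ℕ, ∃ k : ℕ, m ∈ F → (X k < m ∧ Bad k (M k) m) := by
      intro m
      by_cases hm : m ∈ F
      · obtain ⟨⟨k, hk1, hk2⟩, -⟩ := hF m hm
        exact ⟨k, fun _ => ⟨hk1, hk2⟩⟩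
      · exact ⟨0, fun h => absurd h hm⟩
    choose κ hκ using hch
    have hmap : ∀ m ∈ F, κ m ∈ Finset.range (Nat.clog 2 N + 1) := by
      intro m hm
      obtain ⟨g1, -⟩ := hκ m hm
      have g2 := (hF m hm).2
      have h2 : 2 ^ κ m ≤ 2 ^ Nat.clog 2 N :=
        (((hXp (κ m)).2.2.2.trans g1.le).trans g2).trans (Nat.le_pow_clog one_lt_two N)
      have := (Nat.pow_le_pow_iff_right one_lt_two).1 h2
      rw [Finset.mem_range]
      omega
    calc (F.card : ℝ) = ∑ j ∈ Finset.range (Nat.clog 2 N + 1),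
          ((F.filter (fun m => κ m = j)).card : ℝ) := by
          exact_mod_cast Finset.card_eq_sum_card_fiberwise hmap
      _ ≤ ∑ _j ∈ Finset.range (Nat.clog 2 N + 1), (N : ℝ) ^ (ε / 2) := by
          refine Finset.sum_le_sum fun j _ => ?_
          refine hX0 j (X j) (hXp j).1 N _ fun m hm => ?_
          obtain ⟨hmF, hmj⟩ := Finset.mem_filter.1 hm
          obtain ⟨g1, g2⟩ := hκ m hmF
          rw [hmj] at g1 g2
          exact ⟨g1, (hF m hmF).2, g2⟩
      _ = ((Nat.clog 2 N : ℝ) + 1) * (N : ℝ) ^ (ε / 2) := by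
          rw [Finset.sum_const, Finset.card_range, nsmul_eq_mul]
          push_cast
          ring
      _ ≤ (N : ℝ) ^ ε := hX1 N hNX
  · intro k m a b c habc hmd hmE ha hb hc
    obtain ⟨ha0, hb0, hc0, -, -, -, hsum⟩ := id habc
    have hm0 : 0 < m := Nat.pos_of_dvd_of_pos hmd (by positivity)
    have hm2 : 2 ≤ m := by
      by_contra hlt
      have h1 : m = 1 := by omega
      have aux : ∀ t : ℕ, Powers k (m ^ (k + 1)) t → t = 1 := by
        rintro t ⟨x, e, hx, rfl⟩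
        refine Finset.prod_eq_one fun i _ => ?_
        have := hx i
        rw [h1, one_pow] at this
        have h2 : x i = 1 := by omega
        rw [h2, one_pow]
      have := aux a ha
      have := aux b hb
      have := aux c hc
      omega
    by_cases hX' : X k < m
    · by_contra hcon
      refine hmE ⟨k, hX', a, b, c, habc, ha, hb, hc, hmd, ?_⟩
      calc m ^ M k ≤ m ^ (M k + C k + 1) := Nat.pow_le_pow_right hm0 (by omega)
        _ ≤ c := not_lt.1 hcon
    · have hle : m ^ (k + 1) ≤ X k ^ (k + 1) := Nat.pow_le_pow_left (not_lt.1 hX') _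
      calc c ≤ C k := hC k a b c habc (powers_mono hle ha) (powers_mono hle hb) (powers_mono hle hc)
        _ < 2 ^ C k := Nat.lt_two_pow_self
        _ ≤ m ^ C k := Nat.pow_le_pow_left hm2 _
        _ ≤ m ^ (M k + C k + 1) := Nat.pow_le_pow_right hm0 (by omega)

end Pool.Agent.Lib.AbcThin
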